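import Mathlib
import Pool.Agent.Helper287.AM.Fin

set_option autoImplicit false
open MeasureTheory Metric

namespace Pool.Agent.Results.MP_281b2c_an.GrowthMultiplicity

/-- the number of solutions `z` in the unit disc of `f z = w`, counted with multiplicity
(the order of the zero of `ζ ↦ f ζ - w` at `z`) -/
noncomputable def nMult (f : ℂ → ℂ) (w : ℂ) : ENNReal :=
  ∑' z : {z : ℂ | z ∈ ball (0 : ℂ) 1 ∧ f z = w},
    ENat.toENNReal (analyticOrderAt (fun ζ => f ζ - w) (z : ℂ))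

/-- `f` is areally mean univalent (mean `1`-valent) in the unit disc -/
def ArealMeanUnivalent (f : ℂ → ℂ) : Prop :=
  ∀ R : ℝ, 0 < R → (∫⁻ w in ball (0 : ℂ) R, nMult f w) ≤ ENNReal.ofReal (Real.pi * R ^ 2)

theorem encard_le_nMult (f : ℂ → ℂ) (hf : DifferentiableOn ℂ f (ball (0 : ℂ) 1)) (w : ℂ) :
    ENat.toENNReal (Set.encard {z : ℂ | z ∈ ball (0 : ℂ) 1 ∧ f z = w}) ≤ nMult f w := by
  rw [← ENNReal.tsum_set_one]
  unfold nMult
  apply ENNReal.tsum_le_tsum
  rintro ⟨z, hz, hzw⟩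
  have hA : AnalyticAt ℂ (fun ζ => f ζ - w) z :=
    ((hf.analyticAt (isOpen_ball.mem_nhds hz)).sub analyticAt_const)
  have h1 : analyticOrderAt (fun ζ => f ζ - w) z ≠ 0 := by
    intro h0
    rw [hA.analyticOrderAt_eq_zero] at h0
    exact h0 (by simp [hzw])
  have h2 : (1 : ℕ∞) ≤ analyticOrderAt (fun ζ => f ζ - w) z := by
    exact Order.one_le_iff_pos.2 (pos_iff_ne_zero.2 h1)
  have h3 := ENat.toENNReal_le.2 h2
  simpa using h3

/-- Growth theorem for areally mean univalent functions (solutions counted with multiplicity). -/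
theorem result :
    ∀ f : ℂ → ℂ,
      DifferentiableOn ℂ f (ball (0 : ℂ) 1) →
      ArealMeanUnivalent f →
      f 0 = 0 →
      deriv f 0 = 1 →
      ∀ r : ℝ, 0 < r → r < 1 → ∀ z : ℂ, ‖z‖ = r → ‖f z‖ ≤ r / (1 - r) ^ 2 := by
  intro f hf hm h0 hd r hr hr1 z hz
  subst hz
  refine AM287.main_thm f hf h0 hd ?_ z (by simpa using hr1)
  intro R hR
  refine le_trans ?_ (hm R hR)
  apply lintegral_mono
  intro w
  exact encard_le_nMult f hf w

end Pool.Agent.Results.MP_281b2c_an.GrowthMultiplicity
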